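import Pool.Agent.Lib.MP_a69748_lc.Low

/-!
# The target discounted-sum problem for `λ < 1 / 2`: a solution, or all solutions are complicated

`λ = p / q < 1 / 2` in lowest terms, `a`, `b`, `t` rational, `s` the denominator of `τ = (t - b / (1 - λ)) / (a - b)`. A computable
function decides whether there is an eventually periodic word over `{a, b}` with the discounted sum `t`. If there is one, then
it can be chosen with the initial part and the period together of length at most `2 s`. If not, then in every solution equal
words of length `m` at two places `i < j` satisfy `λ ^ (- m) < 2 s p ^ j`, and a solution has more than `c m` words of length `m`,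
for all large `m`, for every `c` with `p ^ c < q / p`.

Proof. The tails `x n = ∑ v (n + k) λ ^ k` (`v n = 1` if `u n = a`, and `0` if `u n = b`) lie in `[0, 1 / (1 - λ)] ⊆ [0, 2)`,
`s p ^ n x n` is an integer, and `x i - x j = λ ^ m (x (i + m) - x (j + m))` if the words of length `m` at `i` and `j` agree. So
`x i = x j` if `2 s p ^ j ≤ λ ^ (- m)`, and expansions are unique for `λ < 1 / 2`, so `u` is periodic from `i` on. For eventually
periodic `u` all `x n` are `p`-integral, so they lie in `ℤ / s`, and two of `x 0, ..., x (2 s)` are equal. The algorithm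
computes the `x n` (`stp`, `run`, `dec`).
-/

open Filter

namespace Pool.Agent.Results.MP_a69748_lc.LowComplexity

/-- The target discounted-sum problem for `0 < l < 1 / 2`: an algorithm which finds a solution or shows that all solutions (if
there are any) are complicated. The input `x` consists of the codes `(m, n)` of the fractions `m / (n + 1)`. -/
theorem result : ∃ D : ((ℤ × ℕ) × (ℤ × ℕ)) × ((ℤ × ℕ) × (ℤ × ℕ)) → Bool, Computable D ∧
    ∀ x, ∀ a b t l : ℚ, a = x.1.1.1 / (x.1.1.2 + 1) → b = x.1.2.1 / (x.1.2.2 + 1) → t = x.2.1.1 / (x.2.1.2 + 1) →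
      l = x.2.2.1 / (x.2.2.2 + 1) → 0 < l → l < 1 / 2 → ∀ s : ℕ, s = ((t - b / (1 - l)) / (a - b)).den →
      -- the answer is yes: there is a solution with a short initial part and a short period
      (D x = true → ∃ u : ℕ → Bool, HasSum (fun n => (if u n then (a : ℝ) else b) * (l : ℝ) ^ n) t ∧
        ∃ i j, i < j ∧ j ≤ 2 * s ∧ ∀ k, u (i + k) = u (j + k)) ∧
      -- the answer is no: every solution has only short repetitions and many words of each length
      (D x = false → ∀ u : ℕ → Bool, HasSum (fun n => (if u n then (a : ℝ) else b) * (l : ℝ) ^ n) t →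
        (∀ i j m : ℕ, i < j → (∀ k < m, u (i + k) = u (j + k)) → 1 < 2 * s * (l.num : ℝ) ^ j * (l : ℝ) ^ m) ∧
        ∀ c : ℝ, (l.num : ℝ) ^ c * l < 1 → ∀ᶠ m : ℕ in atTop,
          c * m < (Set.range (fun (i : ℕ) (k : Fin m) => u (i + k))).ncard) :=
  Pool.Agent.Lib.MP_a69748_lc.Low.main

end Pool.Agent.Results.MP_a69748_lc.LowComplexity
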